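import Pool.Agent.Helper94.P2.NFam
import Pool.Agent.Helper92.BQ.Defs

/-!
# The module NCOPY of phase 2

The recursive chain `Gf` for a family without side information and the vector of sums of
neighbours of independent copies.
-/

set_option autoImplicit false

namespace Pool.Agent.Helper94.P2

open Finset Pool.Agent.Helper15.BP Pool.Agent.Helper92.BQ

/-- the law of a vector of images -/
theorem pr_prodN {Ω G : Type} [Fintype Ω] [Fintype G] (N : ℕ) (w : Ω → ℝ) (f : Ω → G) :
    pr (prodN N w) (fun x i => f (x i)) = prodN N (pr w f) := by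
  classical
  funext y
  have h1 := Finset.prod_univ_sum (fun _ : Fin N => (Finset.univ : Finset Ω))
    (fun j o => if f o = y j then w o else 0)
  have h2 : prodN N (pr w f) y = ∏ j : Fin N, ∑ o, (if f o = y j then w o else 0) := by
    unfold prodN pr
    exact Finset.prod_congr rfl fun j _ => Finset.sum_congr rfl fun o _ =>
      Pool.Agent.Helper97.PF.ite_any
  rw [h2, h1, Fintype.piFinset_univ]
  unfold pr prodN
  refine Finset.sum_congr rfl fun x _ => ?_
  by_cases h : (fun i => f (x i)) = y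
  · rw [if_pos h]
    refine Finset.prod_congr rfl fun i _ => ?_
    rw [if_pos (congrFun h i)]
  · rw [if_neg h]
    have h3 : ∃ i, f (x i) ≠ y i := by
      by_contra hcon
      push Not at hcon
      exact h (funext hcon)
    obtain ⟨i, hi⟩ := h3
    exact (Finset.prod_eq_zero (Finset.mem_univ i) (if_neg hi)).symm

variable {G : Type} [AddCommGroup G]

theorem adj_cons {n : ℕ} (a : G) (y : Fin (n + 1) → G) :
    adj (n + 1) (Fin.cons a y) = Fin.cons (a + y 0) (adj n y) := by
  funext i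
  refine Fin.cases ?_ (fun j => ?_) i
  · rfl
  · unfold adj
    rw [Fin.cons_succ, ← Fin.succ_castSucc, Fin.cons_succ, Fin.cons_succ]

/-- the sample space of `Gf M j` is the space of `j + 1` samples of `M` -/
theorem gf_equiv (M : Fam G) (hJ : ∀ o o', M.J o = M.J o') (j : ℕ) :
    ∃ e : (Gf M j).Ω ≃ (Fin (j + 1) → M.Ω),
      (∀ o, (Gf M j).w o = prodN (j + 1) M.w (e o)) ∧
      (∀ o, (Gf M j).Y o = M.Y (e o 0)) ∧
      (∀ o o', (Gf M j).J o = (Gf M j).J o' ↔
        adj j (fun i => M.Y (e o i)) = adj j (fun i => M.Y (e o' i))) := by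
  induction j with
  | zero =>
    refine ⟨(Equiv.funUnique (Fin 1) M.Ω).symm, ?_, ?_, ?_⟩
    · intro o
      unfold prodN
      rw [Fin.prod_univ_one]
      rfl
    · intro o; rfl
    · intro o o'
      constructor
      · intro _
        funext i
        exact i.elim0
      · intro _
        exact hJ o o'
  | succ j ih =>
    obtain ⟨e, h1, h2, h3⟩ := ih
    refine ⟨(Equiv.prodCongr (Equiv.refl M.Ω) e).trans (Fin.consEquiv (fun _ => M.Ω)), ?_, ?_, ?_⟩
    · intro o
      change M.w o.1 * (Gf M j).w o.2 = prodN (j + 1 + 1) M.w (Fin.cons o.1 (e o.2))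
      rw [h1]
      unfold prodN
      rw [Fin.prod_univ_succ (fun i => M.w ((Fin.cons o.1 (e o.2) : Fin (j + 1 + 1) → M.Ω) i))]
      simp only [Fin.cons_zero, Fin.cons_succ]
    · intro o; rfl
    · intro o o'
      have hc : ∀ o : M.Ω × (Gf M j).Ω, (fun i => M.Y ((Fin.cons o.1 (e o.2) :
          Fin (j + 1 + 1) → M.Ω) i)) = Fin.cons (M.Y o.1) (fun i => M.Y (e o.2 i)) := by
        intro o
        funext i
        refine Fin.cases ?_ (fun k => ?_) i
        · rfl
        · rfl
      change ((M.J o.1, (Gf M j).J o.2), M.Y o.1 + (Gf M j).Y o.2) =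
        ((M.J o'.1, (Gf M j).J o'.2), M.Y o'.1 + (Gf M j).Y o'.2) ↔
        adj (j + 1) (fun i => M.Y ((Fin.cons o.1 (e o.2) : Fin (j + 1 + 1) → M.Ω) i)) =
        adj (j + 1) (fun i => M.Y ((Fin.cons o'.1 (e o'.2) : Fin (j + 1 + 1) → M.Ω) i))
      rw [hc, hc, adj_cons, adj_cons, Fin.cons_inj, h2, h2]
      simp only [Prod.mk.injEq, h3]
      constructor
      · rintro ⟨⟨-, a⟩, b⟩; exact ⟨b, a⟩
      · rintro ⟨b, a⟩; exact ⟨⟨hJ _ _, a⟩, b⟩

/-- entropy of the vector of sums of neighbours -/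
noncomputable def eadj [Fintype G] (q : G → ℝ) (j : ℕ) : ℝ := Ent (prodN (j + 1) q) (adj j)

theorem eadj_eq [Fintype G] (M : Fam G) (j : ℕ) :
    Ent (prodN (j + 1) M.w) (fun x => adj j (fun i => M.Y (x i))) = eadj (pr M.w M.Y) j := by
  unfold eadj
  rw [← pr_prodN (j + 1) M.w M.Y]
  exact Pool.Agent.Helper5.PF.Ent_comp (prodN (j + 1) M.w) (fun x i => M.Y (x i)) (adj j)

theorem Ent_gf_J [Fintype G] (M : Fam G) (hJ : ∀ o o', M.J o = M.J o') (j : ℕ) :
    Ent (Gf M j).w (Gf M j).J = eadj (pr M.w M.Y) j := by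
  obtain ⟨e, h1, h2, h3⟩ := gf_equiv M hJ j
  rw [← eadj_eq, ← Ent_equiv (w := (Gf M j).w) (w' := prodN (j + 1) M.w) e
    (fun o => (h1 o).symm)]
  exact Ent_congr fun o o' => h3 o o'

/-- one step of the chain -/
theorem h_add_gf [Fintype G] (M : Fam G) (hJ : ∀ o o', M.J o = M.J o') (j : ℕ) :
    Pool.Agent.Helper88.PF.h (M.add (Gf M j)) =
      eadj (pr M.w M.Y) (j + 1) - eadj (pr M.w M.Y) j := by
  have hM : Ent M.w M.J = 0 := by
    rw [← Ent_const M.hw (0 : ℕ)]
    exact Ent_congr fun o o' => ⟨fun _ => rfl, fun _ => hJ o o'⟩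
  rw [Pool.Agent.Helper88.PF.h_add, hM, zero_add, Ent_gf_J M hJ j]
  congr 1
  have h1 := Ent_gf_J M hJ (j + 1)
  rw [← h1]
  rfl

theorem eadj_zero [Fintype G] {q : G → ℝ} (hq : IsPr q) : eadj q 0 = 0 := by
  unfold eadj
  rw [← Ent_const (isPr_prodN (N := 0 + 1) hq) (0 : ℕ)]
  refine Ent_congr fun o o' => ?_
  constructor
  · intro _; rfl
  · intro _
    funext i
    exact i.elim0

/-- **the chain formula**: the recursive and the vector form of `EN` agree -/
theorem EN_bridge [Fintype G] (M : Fam G) (hJ : ∀ o o', M.J o = M.J o') (n : ℕ) :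
    Pool.Agent.Helper92.BQ.EN M (n + 1) = Pool.Agent.Helper94.P2.EN (pr M.w M.Y) n := by
  unfold Pool.Agent.Helper92.BQ.EN Pool.Agent.Helper94.P2.EN
  have hq : IsPr (pr M.w M.Y) := Pool.Agent.Helper5.PF.isPr_pr M.hw M.Y
  have key : ∀ m, ∑ j ∈ Finset.range m, (M.add (Gf M j)).D ⊥ =
      m * Real.log (Nat.card G) - eadj (pr M.w M.Y) m := by
    intro m
    induction m with
    | zero => simp [eadj_zero hq]
    | succ m ih =>
      rw [Finset.sum_range_succ, ih, D_bot_eq, h_add_gf M hJ m]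
      push_cast
      ring
  exact key n

/-- the module NCOPY -/
theorem ncopy_holds : NCOPY := by
  intro G _ _ h2 A N hN
  obtain ⟨n, rfl⟩ : ∃ n, N = n + 1 := ⟨N - 1, by omega⟩
  have key := ncopy_fam h2 A n
  set B := (A.fib A).add (A.fib A) with hB
  have hsum : ∑ o, B.w o * Pool.Agent.Helper94.P2.EN (B.lawAt o) n =
      ∑ o, B.w o * ENL (B.lawAt o) (n + 1) := by
    refine Finset.sum_congr rfl fun o _ => ?_
    rcases (B.hw.nonneg o).eq_or_lt with h0 | h0
    · rw [← h0, zero_mul, zero_mul]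
    · have hq : IsPr (B.lawAt o) := isPr_law B.hw B.Y B.J (B.J o) (pr_pos B.hw B.J h0).ne'
      congr 1
      unfold ENL
      rw [dif_pos hq, EN_bridge (S5.ofLaw (B.lawAt o) hq) (fun _ _ => rfl) n]
      have h3 : pr (S5.ofLaw (B.lawAt o) hq).w (S5.ofLaw (B.lawAt o) hq).Y = B.lawAt o := by
        funext a
        exact pr_id (B.lawAt o) a
      rw [h3]
  rw [← hsum]
  push_cast at key ⊢
  nlinarith [key]

end Pool.Agent.Helper94.P2
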