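import Pool.Agent.Helper25.P2.Base
import Pool.Agent.Helper92.BQ.Defs

/-!
# The module ENCHAIN of phase 2

`EN` of a law is at most `N` times the deficiency modulo `H` plus `EN` of the section.
-/

set_option autoImplicit false

namespace Pool.Agent.Helper94.P2

open Finset Pool.Agent.Helper15.BP Pool.Agent.Helper92.BQ

variable {G : Type} [AddCommGroup G]

/-- conditioning the chain on the classes modulo `V` -/
theorem gf_resV (A : Fam G) (V : AddSubgroup G) (j : ℕ) :
    Fam.Sim ((Gf A j).resV V) (Gf (A.resV V) j) := by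
  induction j with
  | zero => exact Fam.Sim.refl _
  | succ j ih =>
    exact (Fam.Sim.fib_resV A (Gf A j) V).trans (Fam.Sim.fib (Fam.Sim.refl _) ih)

/-- the chain inequality for families -/
theorem EN_le [Finite G] (A : Fam G) (V : AddSubgroup G) (N : ℕ) :
    EN A N ≤ N * A.D V + EN (A.resV V) N := by
  unfold EN
  have h1 : ∀ j ∈ Finset.range (N - 1), (A.add (Gf A j)).D ⊥ ≤
      A.D V + ((A.resV V).add (Gf (A.resV V) j)).D ⊥ := by
    intro j _
    have h2 := Fam.add_le_mod_res A (Gf A j) V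
    rw [Fam.add_D_mod] at h2
    have h3 := Fam.D_add_le A (Gf A j) V
    have h4 := (Fam.Sim.add (Fam.Sim.refl (A.resV V)) (gf_resV A V j)).D_eq ⊥
    rw [h4] at h2
    linarith
  refine (Finset.sum_le_sum h1).trans ?_
  rw [Finset.sum_add_distrib, Finset.sum_const, Finset.card_range, nsmul_eq_mul]
  have h5 : ((N - 1 : ℕ) : ℝ) ≤ N := by exact_mod_cast Nat.sub_le N 1
  have h6 := mul_le_mul_of_nonneg_right h5 (A.D_nonneg V)
  linarith

/-- the module ENCHAIN -/
theorem enchain_holds : ENCHAIN := by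
  intro G _ _ h2 N c δ hc hδ hLE p hp H hH
  unfold ENL
  rw [dif_pos hp]
  set A := S5.ofLaw p hp with hA
  have hD : ∀ K : AddSubgroup G, A.D K = DL p K := fun K => S5.D_ofLaw hp K
  have h1 := EN_le A H N
  have h3 : ∀ x : H, x + x = 0 := fun x => Subtype.ext (h2 x)
  have h4 : ∀ K : AddSubgroup H, (A.resV H).D K ≤ c * Real.log K.index := by
    intro K
    rw [Fam.resV_D, hD, hD]
    have h5 := hH (K.map H.subtype) (Fam.map_subtype_le H K)
    rw [Fam.log_index_map] at h5
    linarith
  have h5 := hLE H h3 (A.resV H) h4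
  rw [Fam.resV_D_bot, hD, hD] at h5
  rw [hD] at h1
  have h6 : 0 ≤ DL p H := S5.DL_nonneg hp H
  have h7 : δ * (DL p ⊥ - DL p H) ≤ δ * DL p ⊥ :=
    mul_le_mul_of_nonneg_left (by linarith) hδ
  linarith

end Pool.Agent.Helper94.P2
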