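import Pool.Agent.Helper94.PF.Sel
import Pool.Agent.Helper25.PF.Cond
import Pool.Agent.Helper5.PF.Lim

/-!
# The inequality of `N` conditionally independent copies (note 2116, step 3)

In a group of exponent two let `Z = A + B` and let `N` copies of `(A, B)` be independent given
`(Z, C)`.  Then
`H(Z | C) + N H(A | Z, C) + E H(A₁ + A₂, …, A_(N-1) + A_N) ≤ N H(A | C) + N H(B | C)`,
the average being over the conditional laws of `A` given `(Z, C)`.
-/

set_option autoImplicit false

namespace Pool.Agent.Helper94.P2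

open Finset Pool.Agent.Helper15.BP Pool.Agent.Helper25.PF

/-! ### Product laws -/

section Prod

variable {G : Type} [Fintype G] {N : ℕ}

/-- the law of `N` independent copies -/
def prodN (N : ℕ) (q : G → ℝ) : (Fin N → G) → ℝ := fun x => ∏ i, q (x i)

theorem sum_prodN (q : G → ℝ) : ∑ x, prodN N q x = (∑ a, q a) ^ N := by
  classical
  unfold prodN
  rw [← Fintype.sum_pow]

theorem isPr_prodN {q : G → ℝ} (hq : IsPr q) : IsPr (prodN N q) := by
  refine ⟨fun x => Finset.prod_nonneg fun i _ => hq.nonneg _, ?_⟩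
  rw [sum_prodN, hq.sum_one, one_pow]

theorem sum_prodN_coord {q : G → ℝ} (hq : IsPr q) (i : Fin N) (φ : G → ℝ) :
    ∑ x, prodN N q x * φ (x i) = ∑ a, q a * φ a := by
  classical
  have h1 := Finset.prod_univ_sum (fun _ : Fin N => (Finset.univ : Finset G))
    (fun j a => q a * (if j = i then φ a else 1))
  have h2 : ∏ j : Fin N, ∑ a, q a * (if j = i then φ a else 1) = ∑ a, q a * φ a := by
    rw [Finset.prod_eq_single i]
    · simp
    · intro j _ hj
      simp only [if_neg hj, mul_one]
      exact hq.sum_one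
    · intro h; exact absurd (Finset.mem_univ i) h
  rw [h2] at h1
  rw [h1, Fintype.piFinset_univ]
  refine Finset.sum_congr rfl fun x _ => ?_
  unfold prodN
  rw [Finset.prod_mul_distrib]
  congr 1
  rw [Finset.prod_eq_single i]
  · simp
  · intro j _ hj
    rw [if_neg hj]
  · intro h; exact absurd (Finset.mem_univ i) h

theorem Ent_prodN {q : G → ℝ} (hq : IsPr q) :
    Ent (prodN N q) (fun x => x) = N * Ent q (fun x => x) := by
  classical
  have h1 : Ent (prodN N q) (fun x => x) = ∑ x, prodN N q x * ∑ i, (-Real.log (q (x i))) := by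
    unfold Ent
    refine Finset.sum_congr rfl fun x _ => ?_
    rw [pr_id]
    by_cases h0 : prodN N q x = 0
    · rw [h0, zero_mul, zero_mul]
    · congr 1
      rw [Finset.sum_neg_distrib]
      congr 1
      unfold prodN at h0 ⊢
      exact Real.log_prod fun i _ => Finset.prod_ne_zero_iff.1 h0 i (Finset.mem_univ i)
  rw [h1]
  have h2 : ∀ x, prodN N q x * ∑ i, (-Real.log (q (x i))) =
      ∑ i, prodN N q x * (fun a => -Real.log (q a)) (x i) := by
    intro x
    rw [Finset.mul_sum]
  rw [Finset.sum_congr rfl fun x _ => h2 x, Finset.sum_comm,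
    Finset.sum_congr rfl fun i _ => sum_prodN_coord hq i (fun a => -Real.log (q a))]
  rw [Finset.sum_const, Finset.card_univ, Fintype.card_fin, nsmul_eq_mul]
  congr 1
  unfold Ent
  exact Finset.sum_congr rfl fun a _ => by rw [pr_id]

end Prod

/-! ### Subadditivity over the coordinates -/

section Pi

variable {Ω α γ : Type*} [Fintype Ω] {N : ℕ}

theorem Ent_pi_le {w : Ω → ℝ} (hw : IsPr w) (f : Fin N → Ω → α) (C : Ω → γ) :
    Ent w (fun o => ((fun i => f i o), C o)) - Ent w C ≤
      ∑ i, (Ent w (fun o => (f i o, C o)) - Ent w C) := by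
  classical
  have key : ∀ S : Finset (Fin N),
      Ent w (fun o => ((fun i => if i ∈ S then some (f i o) else none), C o)) - Ent w C ≤
        ∑ i ∈ S, (Ent w (fun o => (f i o, C o)) - Ent w C) := by
    intro S
    induction S using Finset.induction_on with
    | empty =>
      have : Ent w (fun o => ((fun i => if i ∈ (∅ : Finset (Fin N)) then some (f i o) else none),
          C o)) = Ent w C := by
        refine Ent_congr fun o o' => ?_
        simp
      rw [this]
      simp
    | insert a S ha ih =>
      rw [Finset.sum_insert ha]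
      have h1 := Ent_submod hw (f a) (fun o => (fun i => if i ∈ S then some (f i o) else none)) C
      have h2 : Ent w (fun o => (f a o, (fun i => if i ∈ S then some (f i o) else none), C o)) =
          Ent w (fun o => ((fun i => if i ∈ insert a S then some (f i o) else none), C o)) := by
        refine Ent_congr fun o o' => ?_
        simp only [Prod.mk.injEq]
        constructor
        · rintro ⟨h3, h4, h5⟩
          refine ⟨?_, h5⟩
          funext i
          by_cases hi : i = a
          · subst hi
            simp [h3]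
          · have := congrFun h4 i
            simp only [Finset.mem_insert, hi, false_or]
            exact this
        · rintro ⟨h4, h5⟩
          refine ⟨?_, ?_, h5⟩
          · have := congrFun h4 a
            simpa using this
          · funext i
            by_cases hi : i ∈ S
            · have := congrFun h4 i
              simp only [Finset.mem_insert, hi, or_true, if_true] at this ⊢
              exact this
            · simp [hi]
      rw [h2] at h1
      linarith
  have h := key Finset.univ
  have h2 : Ent w (fun o => ((fun i => if i ∈ (Finset.univ : Finset (Fin N)) then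
      some (f i o) else none), C o)) = Ent w (fun o => ((fun i => f i o), C o)) := by
    refine Ent_congr fun o o' => ?_
    simp only [Prod.mk.injEq, Finset.mem_univ, if_true]
    constructor
    · rintro ⟨h4, h5⟩
      exact ⟨funext fun i => Option.some_injective _ (congrFun h4 i), h5⟩
    · rintro ⟨h4, h5⟩
      exact ⟨funext fun i => congrArg some (congrFun h4 i), h5⟩
  rw [h2] at h
  exact h

end Pi

/-! ### Conditionally independent copies -/

section Kernel

variable {Ω υ δ : Type*} [Fintype Ω] {G : Type} [Fintype G] {N : ℕ}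

/-- a point of `Ω` and `N` samples of the conditional law of `A` given the value of `U` -/
noncomputable def kw (N : ℕ) (w : Ω → ℝ) (A : Ω → G) (U : Ω → υ) : Ω × (Fin N → G) → ℝ :=
  fun p => w p.1 * prodN N (law w A U (U p.1)) p.2

theorem sum_kw_U {w : Ω → ℝ} (hw : IsPr w) (A : Ω → G) (U : Ω → υ) (Φ : Ω → ℝ) :
    ∑ p, kw N w A U p * Φ p.1 = ∑ o, w o * Φ o := by
  rw [Fintype.sum_prod_type]
  refine Finset.sum_congr rfl fun o _ => ?_
  rcases (hw.nonneg o).eq_or_lt with h0 | h0
  · simp only [kw, ← h0, zero_mul, Finset.sum_const_zero]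
  · have h1 : ∀ x : Fin N → G, kw N w A U (o, x) * Φ o =
        (w o * Φ o) * prodN N (law w A U (U o)) x := by
      intro x
      unfold kw
      ring
    simp only [h1]
    rw [← Finset.mul_sum, (isPr_prodN (isPr_law hw A U (U o) (pr_pos hw U h0).ne')).sum_one,
      mul_one]

theorem isPr_kw {w : Ω → ℝ} (hw : IsPr w) (A : Ω → G) (U : Ω → υ) : IsPr (kw N w A U) := by
  constructor
  · intro p
    refine mul_nonneg (hw.nonneg _) (Finset.prod_nonneg fun i _ => ?_)
    exact div_nonneg (pr_nonneg hw _ _) (pr_nonneg hw _ _)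
  · have h := sum_kw_U (N := N) hw A U (fun _ => 1)
    simp only [mul_one] at h
    rw [h, hw.sum_one]

/-- tower property with the conditional law -/
theorem sum_law {w : Ω → ℝ} (hw : IsPr w) (A : Ω → G) (U : Ω → υ) (Φ : G → υ → ℝ) :
    ∑ o, w o * ∑ a, law w A U (U o) a * Φ a (U o) = ∑ o, w o * Φ (A o) (U o) := by
  have h1 : ∀ o, ∑ a, law w A U (U o) a * Φ a (U o) =
      ∑ o', condW w U (U o) o' * (fun u o' => Φ (A o') u) (U o) o' := by
    intro o
    have h2 := Pool.Agent.Helper5.PF.sum_comp (condW w U (U o)) A (fun a => Φ a (U o))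
    simp only
    rw [h2]
    refine Finset.sum_congr rfl fun a _ => ?_
    rw [pr_condW]
    rfl
  rw [Finset.sum_congr rfl fun o _ => by rw [h1 o]]
  exact tower hw U (fun u o' => Φ (A o') u)

theorem sum_kw {w : Ω → ℝ} (hw : IsPr w) (A : Ω → G) (U : Ω → υ) (i : Fin N)
    (Φ : G → υ → ℝ) :
    ∑ p, kw N w A U p * Φ (p.2 i) (U p.1) = ∑ o, w o * Φ (A o) (U o) := by
  rw [← sum_law hw A U Φ, Fintype.sum_prod_type]
  refine Finset.sum_congr rfl fun o _ => ?_
  rcases (hw.nonneg o).eq_or_lt with h0 | h0
  · simp only [kw, ← h0, zero_mul, Finset.sum_const_zero]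
  · have h1 : ∀ x : Fin N → G, kw N w A U (o, x) * Φ (x i) (U o) =
        w o * (prodN N (law w A U (U o)) x * (fun a => Φ a (U o)) (x i)) := by
      intro x
      unfold kw
      ring
    simp only [h1]
    rw [← Finset.mul_sum]
    congr 1
    exact sum_prodN_coord (isPr_law hw A U (U o) (pr_pos hw U h0).ne') i (fun a => Φ a (U o))

theorem Ent_kw_U {w : Ω → ℝ} (hw : IsPr w) (A : Ω → G) (U : Ω → υ) (f : Ω → δ) :
    Ent (kw N w A U) (fun p => f p.1) = Ent w f := by
  classical
  have h1 : ∀ b, pr (kw N w A U) (fun p => f p.1) b = pr w f b := by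
    intro b
    have h2 := sum_kw_U (N := N) hw A U (fun o => if f o = b then 1 else 0)
    simp only [mul_ite, mul_one, mul_zero] at h2
    unfold pr
    exact h2
  unfold Ent
  rw [← sum_kw_U (N := N) hw A U (fun o => -Real.log (pr w f (f o)))]
  exact Finset.sum_congr rfl fun p _ => by rw [h1]

theorem Ent_kw_coord {w : Ω → ℝ} (hw : IsPr w) (A : Ω → G) (U : Ω → υ) (i : Fin N)
    (F : G → υ → δ) :
    Ent (kw N w A U) (fun p => F (p.2 i) (U p.1)) = Ent w (fun o => F (A o) (U o)) := by
  classical
  have h1 : ∀ b, pr (kw N w A U) (fun p => F (p.2 i) (U p.1)) b =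
      pr w (fun o => F (A o) (U o)) b := by
    intro b
    have h2 := sum_kw (N := N) hw A U i (fun a u => if F a u = b then 1 else 0)
    simp only [mul_ite, mul_one, mul_zero] at h2
    unfold pr
    exact h2
  unfold Ent
  rw [← sum_kw (N := N) hw A U i
    (fun a u => -Real.log (pr w (fun o => F (A o) (U o)) (F a u)))]
  exact Finset.sum_congr rfl fun p _ => by rw [h1]

theorem law_kw {w : Ω → ℝ} (hw : IsPr w) (A : Ω → G) (U : Ω → υ) (u : υ)
    (hu : pr w U u ≠ 0) :
    law (kw N w A U) (fun p => p.2) (fun p => U p.1) u = prodN N (law w A U u) := by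
  classical
  funext x
  have h1 : pr (kw N w A U) (fun p => U p.1) u = pr w U u := by
    have h2 := sum_kw_U (N := N) hw A U (fun o => if U o = u then 1 else 0)
    simp only [mul_ite, mul_one, mul_zero] at h2
    unfold pr
    exact h2
  have h3 : pr (kw N w A U) (fun p => (p.2, U p.1)) (x, u) =
      pr w U u * prodN N (law w A U u) x := by
    have h4 : pr (kw N w A U) (fun p => (p.2, U p.1)) (x, u) =
        ∑ o, ∑ y : Fin N → G, if (y, U o) = (x, u) then kw N w A U (o, y) else 0 := by
      unfold pr
      rw [Fintype.sum_prod_type]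
      exact Finset.sum_congr rfl fun o _ => Finset.sum_congr rfl fun y _ =>
        Pool.Agent.Helper97.PF.ite_any
    have h5 : pr w U u = ∑ o, if U o = u then w o else 0 := by
      unfold pr
      exact Finset.sum_congr rfl fun o _ => Pool.Agent.Helper97.PF.ite_any
    rw [h4, h5, Finset.sum_mul]
    refine Finset.sum_congr rfl fun o _ => ?_
    rw [Finset.sum_eq_single x]
    · by_cases h : U o = u
      · rw [if_pos (by rw [h]), if_pos h]
        unfold kw
        simp only
        rw [h]
      · rw [if_neg (fun h' => h (congrArg Prod.snd h')), if_neg h, zero_mul]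
    · intro y _ hy
      rw [if_neg (fun h' => hy (congrArg Prod.fst h'))]
    · intro h; exact absurd (Finset.mem_univ x) h
  unfold law at h3 ⊢
  rw [h1, h3, mul_div_cancel_left₀ _ hu]

/-- fibre formula for a function of the samples -/
theorem Ent_kw_fibre {w : Ω → ℝ} (hw : IsPr w) (A : Ω → G) (U : Ω → υ)
    (h : (Fin N → G) → δ) :
    Ent (kw N w A U) (fun p => (h p.2, U p.1)) - Ent w U =
      ∑ o, w o * Ent (prodN N (law w A U (U o))) h := by
  have h1 := Ent_fibre (isPr_kw (N := N) hw A U) (fun p => p.2) (fun p => U p.1) h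
  rw [Ent_kw_U hw A U U] at h1
  rw [h1, ← sum_kw_U (N := N) hw A U (fun o => Ent (prodN N (law w A U (U o))) h)]
  refine Finset.sum_congr rfl fun p _ => ?_
  by_cases h0 : kw N w A U p = 0
  · rw [h0, zero_mul, zero_mul]
  · have h2 : w p.1 ≠ 0 := by
      intro h3
      apply h0
      unfold kw
      rw [h3, zero_mul]
    have h3 : 0 < w p.1 := lt_of_le_of_ne (hw.nonneg _) (Ne.symm h2)
    rw [law_kw hw A U _ (pr_pos hw U h3).ne']

end Kernel

/-- sums of neighbouring coordinates -/
def adj {G : Type} [Add G] (n : ℕ) : (Fin (n + 1) → G) → (Fin n → G) :=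
  fun x i => x i.castSucc + x i.succ

/-- **the inequality of `N = n + 1` copies** -/
theorem ncopy {Ω γ : Type*} [Fintype Ω] {G : Type} [AddCommGroup G] [Fintype G]
    (h2 : ∀ x : G, x + x = 0) {w : Ω → ℝ} (hw : IsPr w) (A B : Ω → G) (C : Ω → γ) (n : ℕ) :
    (Ent w (fun o => (A o + B o, C o)) - Ent w C) +
      (n + 1 : ℕ) * (Ent w (fun o => (A o, (A o + B o, C o))) -
        Ent w (fun o => (A o + B o, C o))) +
      ∑ o, w o * Ent (prodN (n + 1) (law w A (fun o => (A o + B o, C o)) (A o + B o, C o)))
        (adj n) ≤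
    (n + 1 : ℕ) * ((Ent w (fun o => (A o, C o)) - Ent w C) +
      (Ent w (fun o => (B o, C o)) - Ent w C)) := by
  set U : Ω → G × γ := fun o => (A o + B o, C o) with hU
  have hv := isPr_kw (N := n + 1) hw A U
  set v := kw (n + 1) w A U with hv'
  have hneg : ∀ x : G, -x = x := fun x => (eq_neg_of_add_eq_zero_left (h2 x)).symm
  -- the two vectors
  let P : Ω × (Fin (n + 1) → G) → (Fin (n + 1) → G) := fun p => p.2
  let Q : Ω × (Fin (n + 1) → G) → (Fin (n + 1) → G) := fun p i => (U p.1).1 - p.2 i
  let D : Ω × (Fin (n + 1) → G) → (Fin n → G) := fun p => adj n p.2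
  let Cc : Ω × (Fin (n + 1) → G) → γ := fun p => (U p.1).2
  -- upper bounds
  have eC : Ent v Cc = Ent w C := Ent_kw_U hw A U C
  have u1 : Ent v (fun p => (P p, Cc p)) - Ent v Cc ≤
      (n + 1 : ℕ) * (Ent w (fun o => (A o, C o)) - Ent w C) := by
    have h3 := Ent_pi_le hv (fun i p => p.2 i) Cc
    have h4 : ∀ i : Fin (n + 1), Ent v (fun p => (p.2 i, Cc p)) = Ent w (fun o => (A o, C o)) :=
      fun i => Ent_kw_coord hw A U i (fun a u => (a, u.2))
    simp only [h4, eC] at h3
    rw [Finset.sum_const, Finset.card_univ, Fintype.card_fin, nsmul_eq_mul] at h3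
    rw [eC]
    exact h3
  have u2 : Ent v (fun p => (Q p, Cc p)) - Ent v Cc ≤
      (n + 1 : ℕ) * (Ent w (fun o => (B o, C o)) - Ent w C) := by
    have h3 := Ent_pi_le hv (fun i p => (U p.1).1 - p.2 i) Cc
    have h4 : ∀ i : Fin (n + 1), Ent v (fun p => ((U p.1).1 - p.2 i, Cc p)) =
        Ent w (fun o => (B o, C o)) := by
      intro i
      have h5 := Ent_kw_coord hw A U i (fun a u => (u.1 - a, u.2))
      simp only [hU, add_sub_cancel_left] at h5
      exact h5
    simp only [h4, eC] at h3
    rw [Finset.sum_const, Finset.card_univ, Fintype.card_fin, nsmul_eq_mul] at h3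
    rw [eC]
    exact h3
  -- submodularity
  have s1 := Ent_submod hv P Q (fun p => (D p, Cc p))
  have s2 : Ent v (fun p => (P p, (D p, Cc p))) = Ent v (fun p => (P p, Cc p)) := by
    refine Ent_congr fun o o' => ?_
    simp only [Prod.mk.injEq]
    constructor
    · rintro ⟨h3, -, h4⟩; exact ⟨h3, h4⟩
    · rintro ⟨h3, h4⟩
      refine ⟨h3, ?_, h4⟩
      show adj n (P o) = adj n (P o')
      rw [h3]
  have hQD : ∀ p, D p = adj n (Q p) := by
    intro p
    funext i
    show p.2 i.castSucc + p.2 i.succ =
      ((U p.1).1 - p.2 i.castSucc) + ((U p.1).1 - p.2 i.succ)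
    have h3 := h2 (U p.1).1
    calc p.2 i.castSucc + p.2 i.succ = -(p.2 i.castSucc) + -(p.2 i.succ) := by
          rw [hneg, hneg]
      _ = ((U p.1).1 + (U p.1).1) + (-(p.2 i.castSucc) + -(p.2 i.succ)) := by
          rw [h3, zero_add]
      _ = _ := by abel
  have s3 : Ent v (fun p => (Q p, (D p, Cc p))) = Ent v (fun p => (Q p, Cc p)) := by
    refine Ent_congr fun o o' => ?_
    simp only [Prod.mk.injEq]
    constructor
    · rintro ⟨h3, -, h4⟩; exact ⟨h3, h4⟩
    · rintro ⟨h3, h4⟩
      refine ⟨h3, ?_, h4⟩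
      rw [hQD, hQD, h3]
  have s4 : Ent v (fun p => (P p, Q p, (D p, Cc p))) = Ent v (fun p => (p.2, U p.1)) := by
    refine Ent_congr fun o o' => ?_
    simp only [Prod.mk.injEq]
    constructor
    · rintro ⟨h3, h4, -, h5⟩
      have h3' : o.2 = o'.2 := h3
      refine ⟨h3', Prod.ext ?_ h5⟩
      have h6 := congrFun h4 0
      simp only [Q] at h6
      rw [h3'] at h6
      exact sub_left_injective h6
    · rintro ⟨h3, h4⟩
      refine ⟨h3, ?_, ?_, ?_⟩
      · funext i
        simp only [Q]
        rw [h3, h4]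
      · show adj n o.2 = adj n o'.2
        rw [h3]
      · simp only [Cc]
        rw [h4]
  -- joint entropy of all copies
  have j1 := Ent_kw_fibre (N := n + 1) hw A U (fun x => x)
  have j2 : ∑ o, w o * Ent (prodN (n + 1) (law w A U (U o))) (fun x => x) =
      (n + 1 : ℕ) * (Ent w (fun o => (A o, U o)) - Ent w U) := by
    have h3 := Pool.Agent.Helper94.PF.avg_self hw A U
    rw [h3, Finset.mul_sum]
    refine Finset.sum_congr rfl fun o _ => ?_
    rcases (hw.nonneg o).eq_or_lt with h0 | h0
    · rw [← h0]; ring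
    · rw [Ent_prodN (isPr_law hw A U (U o) (pr_pos hw U h0).ne')]
      unfold EL
      ring
  -- the neighbouring sums
  have j3 := Ent_kw_fibre (N := n + 1) hw A U (adj n)
  have j4 := Ent_submod hv D (fun p => (U p.1).1) Cc
  have j5 : Ent v (fun p => (D p, (U p.1).1, Cc p)) = Ent v (fun p => (adj n p.2, U p.1)) := by
    refine Ent_congr fun o o' => ?_
    simp only [Prod.mk.injEq]
    constructor
    · rintro ⟨h3, h4, h5⟩; exact ⟨h3, Prod.ext h4 h5⟩
    · rintro ⟨h3, h4⟩; exact ⟨h3, congrArg Prod.fst h4, congrArg Prod.snd h4⟩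
  have j6 : Ent v (fun p => ((U p.1).1, Cc p)) = Ent w U := by
    have h3 := Ent_kw_U (N := n + 1) hw A U U
    rw [← h3]
  rw [j5, j6] at j4
  rw [s2, s3, s4] at s1
  rw [j2] at j1
  have e1 : (n + 1 : ℕ) * ((Ent w (fun o => (A o, C o)) - Ent w C) +
      (Ent w (fun o => (B o, C o)) - Ent w C)) =
      (n + 1 : ℕ) * (Ent w (fun o => (A o, C o)) - Ent w C) +
      (n + 1 : ℕ) * (Ent w (fun o => (B o, C o)) - Ent w C) := mul_add _ _ _
  rw [e1]
  linarith

end Pool.Agent.Helper94.P2
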