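import Pool.Agent.Helper94.P2.NCopy
import Pool.Agent.Helper88.PF.Four

/-!
# The inequality of `N` copies for the family `F + F`, `F = (Y₁ | Y₁ + Y₂)`

`EN q n = n log |G| - H(X₁ + X₂, …, X_n + X_(n+1))` for independent `X_i` of law `q`.
-/

set_option autoImplicit false

namespace Pool.Agent.Helper94.P2

open Finset Pool.Agent.Helper15.BP Pool.Agent.Helper88.PF

/-- deficiency of the vector of sums of neighbours of `n + 1` independent copies -/
noncomputable def EN {G : Type} [AddCommGroup G] [Fintype G] (q : G → ℝ) (n : ℕ) : ℝ :=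
  n * Real.log (Nat.card G) - Ent (prodN (n + 1) q) (adj n)

/-- the conditional law depends only on the partition -/
theorem law_congr {Ω α β γ : Type*} [Fintype Ω] (w : Ω → ℝ) (f : Ω → α) {U : Ω → β}
    {V : Ω → γ} (h : ∀ o o', U o = U o' ↔ V o = V o') (o : Ω) :
    law w f U (U o) = law w f V (V o) := by
  classical
  funext a
  unfold law
  rw [pr_congr h o]
  congr 1
  unfold pr
  refine Finset.sum_congr rfl fun x _ => ?_
  by_cases h1 : f x = a ∧ U x = U o
  · have h2 : (f x, U x) = (a, U o) := Prod.ext h1.1 h1.2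
    have h3 : (f x, V x) = (a, V o) := Prod.ext h1.1 ((h x o).1 h1.2)
    rw [if_pos h2, if_pos h3]
  · have h2 : (f x, U x) ≠ (a, U o) := fun h' => h1 ⟨congrArg Prod.fst h', congrArg Prod.snd h'⟩
    have h3 : (f x, V x) ≠ (a, V o) := fun h' => h1
      ⟨congrArg Prod.fst h', (h x o).2 (congrArg Prod.snd h')⟩
    rw [if_neg h2, if_neg h3]

variable {G : Type} [AddCommGroup G] [Fintype G]

omit [Fintype G] in
theorem D_bot_eq (A : Fam G) : A.D ⊥ = Real.log (Nat.card G) - h A := A.D_bot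

/-- **the inequality of `N = n + 1` copies** for the members of `F + F` -/
theorem ncopy_fam (h2 : ∀ x : G, x + x = 0) (A : Fam G) (n : ℕ) :
    2 * (n + 1 : ℕ) * (2 * (A.add A).D ⊥ - ((A.add A).add (A.add A)).D ⊥) ≤
      (2 * (A.add A).D ⊥ - ((A.add A).add (A.add A)).D ⊥) +
      (n + 1 : ℕ) * ((A.fib A).add (A.fib A)).D ⊥ +
      ∑ o, ((A.fib A).add (A.fib A)).w o * EN (((A.fib A).add (A.fib A)).lawAt o) n := by
  set B := (A.fib A).add (A.fib A) with hB
  have hT : ∀ p, T13 A p + T23 A p = T12 A p := by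
    intro p
    have := h2 (A.Y p.2.1)
    unfold T13 T23 T12
    calc A.Y p.1.1 + A.Y p.2.1 + (A.Y p.1.2 + A.Y p.2.1) =
        A.Y p.1.1 + A.Y p.1.2 + (A.Y p.2.1 + A.Y p.2.1) := by abel
      _ = A.Y p.1.1 + A.Y p.1.2 := by rw [this, add_zero]
  have key := ncopy h2 (W4_isPr A) (T13 A) (T23 A) (fun p => (S4 A p, J4 A p)) n
  simp only [hT] at key
  rw [Ent_T12, Ent_T13, Ent_T23] at key
  -- partitions
  have hJ : ∀ o o', (T12 A o, (S4 A o, J4 A o)) = (T12 A o', (S4 A o', J4 A o')) ↔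
      B.J o = B.J o' := by
    intro o o'
    change _ ↔ (((A.J o.1.1, A.J o.1.2), A.Y o.1.1 + A.Y o.1.2),
      ((A.J o.2.1, A.J o.2.2), A.Y o.2.1 + A.Y o.2.2)) =
      (((A.J o'.1.1, A.J o'.1.2), A.Y o'.1.1 + A.Y o'.1.2),
      ((A.J o'.2.1, A.J o'.2.2), A.Y o'.2.1 + A.Y o'.2.2))
    simp only [T12, S4, J4, Prod.mk.injEq]
    constructor
    · rintro ⟨a, b, ⟨c, d⟩, e, f⟩
      rw [a] at b
      exact ⟨⟨⟨c, d⟩, a⟩, ⟨e, f⟩, add_left_cancel b⟩
    · rintro ⟨⟨⟨c, d⟩, a⟩, ⟨e, f⟩, b⟩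
      exact ⟨a, by rw [a, b], ⟨c, d⟩, e, f⟩
  have hlaw : ∀ o, law (W4 A) (T13 A) (fun p => (T12 A p, (S4 A p, J4 A p)))
      (T12 A o, (S4 A o, J4 A o)) = B.lawAt o := by
    intro o
    exact law_congr (W4 A) (T13 A) (U := fun p => (T12 A p, (S4 A p, J4 A p))) (V := B.J) hJ o
  have hhB : Ent (W4 A) (fun p => (T13 A p, (T12 A p, (S4 A p, J4 A p)))) - 2 * a2 A = h B := by
    rw [← Ent_T12]
    unfold h
    have e1 : Ent (W4 A) (fun p => (T12 A p, (S4 A p, J4 A p))) = Ent B.w B.J :=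
      Ent_congr hJ
    have e2 : Ent (W4 A) (fun p => (T13 A p, (T12 A p, (S4 A p, J4 A p)))) =
        Ent B.w (fun o => (B.J o, B.Y o)) := by
      refine Ent_congr fun o o' => ?_
      have h3 := hJ o o'
      simp only [Prod.mk.injEq] at h3 ⊢
      constructor
      · rintro ⟨a, b⟩; exact ⟨h3.1 b, a⟩
      · rintro ⟨b, a⟩; exact ⟨a, h3.2 b⟩
    rw [e1, e2]
  rw [hhB] at key
  have hsum : ∑ o, B.w o * EN (B.lawAt o) n = n * Real.log (Nat.card G) -
      ∑ o, W4 A o * Ent (prodN (n + 1) (law (W4 A) (T13 A)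
        (fun p => (T12 A p, (S4 A p, J4 A p))) (T12 A o, (S4 A o, J4 A o)))) (adj n) := by
    have h3 : ∀ o, B.w o * EN (B.lawAt o) n = B.w o * (n * Real.log (Nat.card G)) -
        W4 A o * Ent (prodN (n + 1) (law (W4 A) (T13 A)
        (fun p => (T12 A p, (S4 A p, J4 A p))) (T12 A o, (S4 A o, J4 A o)))) (adj n) := by
      intro o
      rw [hlaw o]
      unfold EN
      have h4 : B.w o = W4 A o := rfl
      rw [h4]
      ring
    rw [Finset.sum_congr rfl fun o _ => h3 o, Finset.sum_sub_distrib, ← Finset.sum_mul,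
      B.hw.sum_one, one_mul]
    rfl
  rw [hsum, D_bot_eq, D_bot_eq, D_bot_eq, h_two, h_four]
  push_cast at key ⊢
  nlinarith [key]

end Pool.Agent.Helper94.P2
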